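import Mathlib

set_option autoImplicit false

/-!
# MP_9c4245_co: the threshold number is unbounded on the graphs `G` with `t(Gᶜ) = 2`

Proof by counting. On `n` labelled vertices there are at most `n! * 4 ^ (n k)` `k`-threshold graphs: such
a graph is determined by an ordering of the vertices by their ranks and by `k` monotone functions. But
there are at least `n ^ ((3/2 - o(1)) n)` graphs which are intersections of two threshold graphs.
-/

namespace Pool.Agent.Results.MP_9c4245_co.Unbounded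

open Finset

/-- `G` is a `k`-threshold graph: there are thresholds `θ_1 < ... < θ_k` and ranks `r_v` such that
distinct `v`, `w` are adjacent iff the number of `i` with `θ_i ≤ r_v + r_w` is odd. -/
def IsKThreshold {V : Type} (k : ℕ) (G : SimpleGraph V) : Prop :=
  ∃ θ : Fin k → ℝ, StrictMono θ ∧ ∃ r : V → ℝ, ∀ v w : V, v ≠ w →
    (G.Adj v w ↔ Odd {i : Fin k | θ i ≤ r v + r w}.ncard)

/-- The edge set of `H` is the union of the edge sets of `k` threshold graphs on the same vertex set;
the threshold dimension `t(H)` is the least such `k`. -/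
def IsUnionOfThreshold {V : Type} (k : ℕ) (H : SimpleGraph V) : Prop :=
  ∃ T : Fin k → SimpleGraph V, (∀ i, IsKThreshold 1 (T i)) ∧ H = ⨆ i, T i

/-! ### Counting `k`-threshold graphs -/

/-- sorting the ranks -/
theorem exists_sort {V : Type} [Fintype V] {n : ℕ} (hn : Fintype.card V = n) (r : V → ℝ) :
    ∃ σ : V ≃ Fin n, Monotone (fun j => r (σ.symm j)) := by
  let e : V ≃ Fin n := Fintype.equivFinOfCardEq hn
  refine ⟨e.trans (Tuple.sort (fun j => r (e.symm j))).symm, ?_⟩
  exact Tuple.monotone_sort (fun j => r (e.symm j))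

/-- the number of `w` with `θ ≤ r v + r w` where `v` is the `j`-th vertex -/
noncomputable def cnt {V : Type} {n : ℕ} (σ : V ≃ Fin n) (r : V → ℝ) (θ : ℝ) (j : Fin n) : ℕ :=
  (univ.filter (fun j' : Fin n => θ ≤ r (σ.symm j) + r (σ.symm j'))).card

theorem cnt_le {V : Type} {n : ℕ} (σ : V ≃ Fin n) (r : V → ℝ) (θ : ℝ) (j : Fin n) :
    cnt σ r θ j ≤ n := by
  unfold cnt
  exact (card_le_univ _).trans (by simp)

theorem cnt_mono {V : Type} {n : ℕ} {σ : V ≃ Fin n} {r : V → ℝ}
    (hσ : Monotone (fun j => r (σ.symm j))) (θ : ℝ) : Monotone (cnt σ r θ) := by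
  intro a b hab
  apply card_le_card
  intro j' hj'
  simp only [mem_filter, mem_univ, true_and] at hj' ⊢
  have := hσ hab
  simp only at this
  linarith

/-- the counts determine the comparisons -/
theorem cnt_spec {V : Type} {n : ℕ} {σ : V ≃ Fin n} {r : V → ℝ}
    (hσ : Monotone (fun j => r (σ.symm j))) (θ : ℝ) (j j' : Fin n) :
    θ ≤ r (σ.symm j) + r (σ.symm j') ↔ n ≤ j'.val + cnt σ r θ j := by
  constructor
  · intro h
    have h1 : Finset.Ici j' ⊆
        univ.filter (fun x : Fin n => θ ≤ r (σ.symm j) + r (σ.symm x)) := by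
      intro x hx
      rw [Finset.mem_Ici] at hx
      simp only [mem_filter, mem_univ, true_and]
      have := hσ hx
      simp only at this
      linarith
    have h2 := card_le_card h1
    rw [Fin.card_Ici] at h2
    have := j'.isLt
    unfold cnt
    omega
  · intro h
    by_contra hcon
    have h1 : univ.filter (fun x : Fin n => θ ≤ r (σ.symm j) + r (σ.symm x)) ⊆
        Finset.Ioi j' := by
      intro x hx
      rw [Finset.mem_Ioi]
      simp only [mem_filter, mem_univ, true_and] at hx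
      by_contra hx'
      have := hσ (not_lt.1 hx')
      simp only at this
      linarith
    have h2 := card_le_card h1
    rw [Fin.card_Ioi] at h2
    have := j'.isLt
    unfold cnt at h
    omega

/-- the code of a monotone function `Fin n → {0, ..., n}` -/
def code {n : ℕ} (s : Fin n → ℕ) : Finset (Fin (2 * n)) :=
  univ.filter (fun t => ∃ j : Fin n, t.val = j.val + s j)

theorem code_inj {n : ℕ} {s s' : Fin n → ℕ} (hs : Monotone s) (hs' : Monotone s')
    (hb : ∀ j, s j ≤ n) (hb' : ∀ j, s' j ≤ n) (h : code s = code s') : s = s' := by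
  have key : ∀ {s s' : Fin n → ℕ}, (∀ j, s j ≤ n) → code s = code s' →
      Set.range (fun j : Fin n => j.val + s j) ⊆ Set.range (fun j : Fin n => j.val + s' j) := by
    rintro s s' hb h _ ⟨j, rfl⟩
    have h1 : (⟨j.val + s j, by have := j.isLt; have := hb j; omega⟩ : Fin (2 * n)) ∈ code s := by
      simp only [code, mem_filter, mem_univ, true_and]
      exact ⟨j, rfl⟩
    rw [h] at h1
    simp only [code, mem_filter, mem_univ, true_and] at h1
    obtain ⟨j', h2⟩ := h1
    exact ⟨j', h2.symm⟩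
  have hr := Set.Subset.antisymm (key hb h) (key hb' h.symm)
  have m1 : StrictMono (fun j : Fin n => j.val + s j) := by
    intro a b hab
    have := hs hab.le
    have h3 : a.val < b.val := hab
    show a.val + s a < b.val + s b
    omega
  have m2 : StrictMono (fun j : Fin n => j.val + s' j) := by
    intro a b hab
    have := hs' hab.le
    have h3 : a.val < b.val := hab
    show a.val + s' a < b.val + s' b
    omega
  have h4 := (m1.range_inj m2).1 hr
  funext j
  have : j.val + s j = j.val + s' j := congrFun h4 j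
  omega

/-- If a family of different graphs on `V` consists of `k`-threshold graphs with `k ≤ C`, then it has
at most `(C + 1) n! 4 ^ (n C)` members. -/
theorem count {V : Type} [Fintype V] [DecidableEq V] {Φ : Type} [Fintype Φ]
    (G : Φ → SimpleGraph V) (hG : Function.Injective G) (C : ℕ)
    (h : ∀ φ, ∃ k, k ≤ C ∧ IsKThreshold k (G φ)) :
    Fintype.card Φ ≤ (C + 1) * ((Fintype.card V).factorial * (2 ^ (2 * Fintype.card V)) ^ C) := by
  classical
  set n := Fintype.card V with hn
  choose k hk hth using h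
  choose θ hθ r hr using hth
  choose σ hσ using fun φ => exists_sort hn.symm (r φ)
  let F : Φ → Fin (C + 1) × (V ≃ Fin n) × (Fin C → Finset (Fin (2 * n))) := fun φ =>
    (⟨k φ, Nat.lt_succ_of_le (hk φ)⟩, σ φ, fun i =>
      if hi : i.val < k φ then code (cnt (σ φ) (r φ) (θ φ ⟨i.val, hi⟩)) else ∅)
  have hF : Function.Injective F := by
    intro φ ψ hFφ
    apply hG
    have h1 : k φ = k ψ := by
      have := congrArg (fun x => x.1.val) hFφ
      exact this
    have h2 : σ φ = σ ψ := congrArg (fun x => x.2.1) hFφ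
    have h3 : ∀ (i : ℕ) (hi : i < k φ) (hi' : i < k ψ),
        cnt (σ φ) (r φ) (θ φ ⟨i, hi⟩) = cnt (σ ψ) (r ψ) (θ ψ ⟨i, hi'⟩) := by
      intro i hi hi'
      have h4 := congrFun (congrArg (fun x => x.2.2) hFφ) (⟨i, lt_of_lt_of_le hi (hk φ)⟩ : Fin C)
      simp only [F, dif_pos hi, dif_pos hi'] at h4
      exact code_inj (cnt_mono (hσ φ) _) (cnt_mono (hσ ψ) _) (cnt_le _ _ _) (cnt_le _ _ _) h4
    have h5 : ∀ (i : ℕ) (hi : i < k φ) (hi' : i < k ψ) (v w : V),
        θ φ ⟨i, hi⟩ ≤ r φ v + r φ w ↔ θ ψ ⟨i, hi'⟩ ≤ r ψ v + r ψ w := by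
      intro i hi hi' v w
      have a1 := cnt_spec (hσ φ) (θ φ ⟨i, hi⟩) (σ φ v) (σ φ w)
      have a2 := cnt_spec (hσ ψ) (θ ψ ⟨i, hi'⟩) (σ ψ v) (σ ψ w)
      rw [Equiv.symm_apply_apply, Equiv.symm_apply_apply] at a1 a2
      rw [a1, a2, h3 i hi hi', h2]
    ext v w
    by_cases hvw : v = w
    · subst hvw; simp
    · rw [hr φ v w hvw, hr ψ v w hvw]
      have h6 : {i : Fin (k φ) | θ φ i ≤ r φ v + r φ w}.ncard =
          {i : Fin (k ψ) | θ ψ i ≤ r ψ v + r ψ w}.ncard := by
        refine Set.ncard_congr (fun i _ => ⟨i.val, by have := i.isLt; omega⟩) ?_ ?_ ?_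
        · intro i hi
          exact (h5 i.val i.isLt (by have := i.isLt; omega) v w).1 hi
        · intro i j _ _ hij
          apply Fin.ext
          simpa using hij
        · intro i hi
          exact ⟨⟨i.val, by have := i.isLt; omega⟩,
            (h5 i.val (by have := i.isLt; omega) i.isLt v w).2 hi, rfl⟩
      rw [h6]
  have h7 := Fintype.card_le_of_injective F hF
  rw [Fintype.card_prod, Fintype.card_prod, Fintype.card_fin, Fintype.card_pi_const,
    Fintype.card_finset, Fintype.card_fin,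
    Fintype.card_equiv (Fintype.equivFinOfCardEq hn.symm)] at h7
  exact h7

/-! ### The family -/

section family

variable {m L : ℕ}

/-- first rank function: `c_i ↦ 3 m - i`, `d_j ↦ - 9 m`, `u ↦ φ(u)_1` -/
def ρ₁ (φ : Fin L → Fin m × Fin m) : Fin m ⊕ Fin m ⊕ Fin L → ℝ
  | .inl i => 3 * m - i.val
  | .inr (.inl _) => - (9 * m)
  | .inr (.inr u) => (φ u).1.val

/-- second rank function: `c_i ↦ - 9 m`, `d_j ↦ 3 m - j`, `u ↦ φ(u)_2` -/
def ρ₂ (φ : Fin L → Fin m × Fin m) : Fin m ⊕ Fin m ⊕ Fin L → ℝ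
  | .inl _ => - (9 * m)
  | .inr (.inl j) => 3 * m - j.val
  | .inr (.inr u) => (φ u).2.val

/-- threshold graph with ranks `ρ` and threshold `t` -/
def thr {V : Type} (ρ : V → ℝ) (t : ℝ) : SimpleGraph V where
  Adj v w := v ≠ w ∧ t ≤ ρ v + ρ w
  symm := ⟨fun _ _ h => ⟨h.1.symm, by rw [add_comm]; exact h.2⟩⟩
  loopless := ⟨fun _ h => h.1 rfl⟩

theorem thr_isKThreshold {V : Type} (ρ : V → ℝ) (t : ℝ) : IsKThreshold 1 (thr ρ t) := by
  refine ⟨fun _ => t, Subsingleton.strictMono _, ρ, fun v w hvw => ?_⟩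
  by_cases h : t ≤ ρ v + ρ w
  · have : {i : Fin 1 | t ≤ ρ v + ρ w} = Set.univ := by ext; simp [h]
    rw [this, Set.ncard_univ]
    simp [thr, hvw, h]
  · have : {i : Fin 1 | t ≤ ρ v + ρ w} = ∅ := by ext; simp [h]
    rw [this, Set.ncard_empty]
    simp [thr, h]

/-- the complement of the graph -/
def H (φ : Fin L → Fin m × Fin m) : SimpleGraph (Fin m ⊕ Fin m ⊕ Fin L) :=
  thr (ρ₁ φ) (3 * m) ⊔ thr (ρ₂ φ) (3 * m)

theorem H_adj_c (φ : Fin L → Fin m × Fin m) (u : Fin L) (i : Fin m) :
    (H φ).Adj (.inr (.inr u)) (.inl i) ↔ i.val ≤ (φ u).1.val := by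
  have hm : 0 < m := i.pos
  have hm' : (0 : ℝ) < m := by exact_mod_cast hm
  have h2 : ((φ u).2.val : ℝ) < m := by exact_mod_cast (φ u).2.isLt
  simp only [H, SimpleGraph.sup_adj, thr, ρ₁, ρ₂]
  constructor
  · rintro (⟨-, h⟩ | ⟨-, h⟩)
    · have : (i.val : ℝ) ≤ (φ u).1.val := by linarith
      exact_mod_cast this
    · exfalso; linarith
  · intro h
    left
    refine ⟨by simp, ?_⟩
    have : (i.val : ℝ) ≤ (φ u).1.val := by exact_mod_cast h
    linarith

theorem H_adj_d (φ : Fin L → Fin m × Fin m) (u : Fin L) (j : Fin m) :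
    (H φ).Adj (.inr (.inr u)) (.inr (.inl j)) ↔ j.val ≤ (φ u).2.val := by
  have hm : 0 < m := j.pos
  have hm' : (0 : ℝ) < m := by exact_mod_cast hm
  have h2 : ((φ u).1.val : ℝ) < m := by exact_mod_cast (φ u).1.isLt
  simp only [H, SimpleGraph.sup_adj, thr, ρ₁, ρ₂]
  constructor
  · rintro (⟨-, h⟩ | ⟨-, h⟩)
    · exfalso; linarith
    · have : (j.val : ℝ) ≤ (φ u).2.val := by linarith
      exact_mod_cast this
  · intro h
    right
    refine ⟨by simp, ?_⟩
    have : (j.val : ℝ) ≤ (φ u).2.val := by exact_mod_cast h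
    linarith

theorem H_injective : Function.Injective (H : (Fin L → Fin m × Fin m) → _) := by
  intro φ ψ h
  funext u
  apply Prod.ext
  · apply Fin.ext
    apply le_antisymm
    · rw [← H_adj_c ψ u (φ u).1, ← h, H_adj_c]
    · rw [← H_adj_c φ u (ψ u).1, h, H_adj_c]
  · apply Fin.ext
    apply le_antisymm
    · rw [← H_adj_d ψ u (φ u).2, ← h, H_adj_d]
    · rw [← H_adj_d φ u (ψ u).2, h, H_adj_d]

theorem H_union (φ : Fin L → Fin m × Fin m) : IsUnionOfThreshold 2 (H φ) := by
  refine ⟨![thr (ρ₁ φ) (3 * m), thr (ρ₂ φ) (3 * m)], ?_, ?_⟩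
  · intro i
    fin_cases i
    · exact thr_isKThreshold _ _
    · exact thr_isKThreshold _ _
  · ext v w
    rw [SimpleGraph.iSup_adj, Fin.exists_fin_two]
    simp [H]

end family

/-- complements of threshold graphs (on finite vertex sets) are threshold graphs -/
theorem compl_threshold {V : Type} [Finite V] {G : SimpleGraph V} (h : IsKThreshold 1 G) :
    IsKThreshold 1 Gᶜ := by
  classical
  obtain ⟨θ, -, r, hr⟩ := h
  have hodd : ∀ v w, Odd {i : Fin 1 | θ i ≤ r v + r w}.ncard ↔ θ 0 ≤ r v + r w := by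
    intro v w
    by_cases h : θ 0 ≤ r v + r w
    · have : {i : Fin 1 | θ i ≤ r v + r w} = Set.univ := by
        ext i; rw [Subsingleton.elim i 0]; simp [h]
      rw [this, Set.ncard_univ]
      simp [h]
    · have : {i : Fin 1 | θ i ≤ r v + r w} = ∅ := by
        ext i; rw [Subsingleton.elim i 0]; simpa using h
      rw [this, Set.ncard_empty]
      simp [h]
  obtain ⟨t, ht, ht'⟩ : ∃ t, t < θ 0 ∧ ∀ v w, r v + r w < θ 0 → r v + r w ≤ t := by
    have := Fintype.ofFinite V
    set S : Finset ℝ := insert (θ 0 - 1)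
      (((univ : Finset (V × V)).image (fun p => r p.1 + r p.2)).filter (fun x => x < θ 0)) with hS
    have hne : S.Nonempty := ⟨_, mem_insert_self _ _⟩
    refine ⟨S.max' hne, ?_, ?_⟩
    · rw [Finset.max'_lt_iff]
      intro y hy
      rw [hS, mem_insert] at hy
      rcases hy with rfl | hy
      · linarith
      · exact (mem_filter.1 hy).2
    · intro v w hvw
      apply Finset.le_max'
      rw [hS, mem_insert]
      right
      rw [mem_filter]
      exact ⟨mem_image.2 ⟨(v, w), mem_univ _, rfl⟩, hvw⟩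
  have h1 := thr_isKThreshold (fun v => - r v) (-t)
  have h2 : Gᶜ = thr (fun v => - r v) (-t) := by
    ext v w
    rw [SimpleGraph.compl_adj]
    by_cases hvw : v = w
    · simp [hvw, thr]
    · rw [hr v w hvw, hodd]
      simp only [thr]
      constructor
      · rintro ⟨h3, h4⟩
        refine ⟨h3, ?_⟩
        have := ht' v w (not_le.1 h4)
        linarith
      · rintro ⟨h3, h4⟩
        refine ⟨h3, ?_⟩
        intro h5
        linarith
  rw [h2]
  exact h1

/-- the numbers -/
theorem numbers (C : ℕ) : ∃ m : ℕ, (C + 1) * ((8 * m).factorial * (2 ^ (2 * (8 * m))) ^ C) <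
    (m * m) ^ (6 * m) := by
  refine ⟨64 * 256 ^ C + 1, ?_⟩
  set m := 64 * 256 ^ C + 1 with hm
  have hm1 : 1 ≤ m := by omega
  have h1 : (8 * m).factorial ≤ (8 * m) ^ (8 * m) := Nat.factorial_le_pow _
  have h2 : C + 1 ≤ 2 ^ (16 * m * C) := by
    have a1 : C < 2 ^ C := Nat.lt_two_pow_self
    have a2 : 2 ^ C ≤ 2 ^ (16 * m * C) := by
      apply Nat.pow_le_pow_right (by norm_num)
      nlinarith
    omega
  have h3 : (2 ^ (2 * (8 * m))) ^ C = 2 ^ (16 * m * C) := by
    rw [← pow_mul]; congr 1; ring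
  rw [h3]
  have h4 : (C + 1) * ((8 * m).factorial * 2 ^ (16 * m * C)) ≤
      2 ^ (16 * m * C) * ((8 * m) ^ (8 * m) * 2 ^ (16 * m * C)) := by
    apply Nat.mul_le_mul h2
    exact Nat.mul_le_mul_right _ h1
  refine lt_of_le_of_lt h4 ?_
  have h5 : 2 ^ (16 * m * C) * ((8 * m) ^ (8 * m) * 2 ^ (16 * m * C)) =
      ((64 * 256 ^ C) ^ 4 * m ^ 8) ^ m := by
    have e1 : (256 : ℕ) = 2 ^ 8 := by norm_num
    have e2 : (64 : ℕ) = 2 ^ 6 := by norm_num
    have e3 : (8 * m) ^ (8 * m) = 2 ^ (24 * m) * m ^ (8 * m) := by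
      rw [mul_pow, show (8 : ℕ) = 2 ^ 3 by norm_num, ← pow_mul]
      congr 2
      ring
    rw [e3, e1, e2, ← pow_mul, ← pow_add, ← pow_mul, mul_pow, ← pow_mul, ← pow_mul]
    rw [show 2 ^ (16 * m * C) * (2 ^ (24 * m) * m ^ (8 * m) * 2 ^ (16 * m * C)) =
      (2 ^ (16 * m * C) * 2 ^ (24 * m) * 2 ^ (16 * m * C)) * m ^ (8 * m) by ring]
    rw [← pow_add, ← pow_add]
    congr 2
    ring
  have h6 : (m * m) ^ (6 * m) = (m ^ 4 * m ^ 8) ^ m := by
    rw [← pow_add, ← pow_two, ← pow_mul, ← pow_mul]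
    congr 1
    ring
  rw [h5, h6]
  apply Nat.pow_lt_pow_left _ (by omega)
  apply Nat.mul_lt_mul_of_pos_right _ (by positivity)
  exact Nat.pow_lt_pow_left (by omega) (by norm_num)

/-- **Q1 has a negative answer.** For every `C` there is a finite graph `G` whose complement has
threshold dimension exactly `2` and which is not a `k`-threshold graph for any `k ≤ C`. -/
theorem result : ∀ C : ℕ, ∃ (V : Type) (_ : Fintype V) (G : SimpleGraph V),
    IsLeast {k : ℕ | IsUnionOfThreshold k Gᶜ} 2 ∧ ∀ k : ℕ, k ≤ C → ¬ IsKThreshold k G := by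
  intro C'
  -- we may increase the bound
  obtain ⟨C, hC, hC1⟩ : ∃ C, C' ≤ C ∧ 1 ≤ C := ⟨C' + 1, by omega, by omega⟩
  obtain ⟨m, hm⟩ := numbers C
  by_cases hall : ∀ φ : Fin (6 * m) → Fin m × Fin m, ∃ k, k ≤ C ∧ IsKThreshold k (H φ)ᶜ
  · exfalso
    have h1 := count (fun φ : Fin (6 * m) → Fin m × Fin m => (H φ)ᶜ)
      (fun φ ψ h => H_injective (compl_injective h)) C hall
    rw [Fintype.card_pi_const, Fintype.card_prod, Fintype.card_sum, Fintype.card_sum,
      Fintype.card_fin, Fintype.card_fin, show m + (m + 6 * m) = 8 * m by ring] at h1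
    omega
  · push Not at hall
    obtain ⟨φ, hφ⟩ := hall
    refine ⟨Fin m ⊕ Fin m ⊕ Fin (6 * m), inferInstance, (H φ)ᶜ, ⟨?_, ?_⟩,
      fun k hk => hφ k (hk.trans hC)⟩
    · simp only [Set.mem_ofPred_eq, compl_compl]
      exact H_union φ
    · intro k hk
      simp only [Set.mem_ofPred_eq, compl_compl] at hk
      by_contra hlt
      have hk2 : k = 0 ∨ k = 1 := by omega
      obtain ⟨T, hT, hHT⟩ := hk
      apply hφ 1 hC1
      rcases hk2 with rfl | rfl
      · -- no threshold graph: `H φ` has no edges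
        have h0 : H φ = ⊥ := by rw [hHT]; exact iSup_of_empty _
        have h1 : (H φ)ᶜ = thr (fun _ => (0 : ℝ)) 0 := by
          rw [h0, compl_bot]
          ext v w
          simp [thr]
        rw [h1]
        exact thr_isKThreshold _ _
      · have h0 : H φ = T 0 := by
          rw [hHT]
          exact ciSup_unique
        rw [h0]
        exact compl_threshold (hT 0)

end Pool.Agent.Results.MP_9c4245_co.Unbounded
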